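import Pool.Agent.H55.CG.Targets

/-!
# MP_65efe8_pr, board cog_modules, row GGS: signs and the normalisation of a group
-/

set_option autoImplicit false

open MeasureTheory ProbabilityTheory Filter Topology
open Pool.Agent.H95 Pool.Agent.H95.Cop Pool.Agent.H55.CG

namespace Pool.Agent.H35.CG

private lemma VV_pos (K : PMF ℕ) (ℓ : ℕ) (hℓ : 1 ≤ ℓ) : 0 < VV K ℓ := by
  unfold VV
  have h0 : ∀ y ∈ Finset.range ℓ, 0 ≤ ∑ z ∈ Finset.Ico y ℓ, uu (kk K) (z - y) := fun y _ =>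
    Finset.sum_nonneg fun z _ => uu_nonneg _ (kk_nonneg K) _
  have h1 : (∑ z ∈ Finset.Ico 0 ℓ, uu (kk K) (z - 0)) ≤
      ∑ y ∈ Finset.range ℓ, ∑ z ∈ Finset.Ico y ℓ, uu (kk K) (z - y) :=
    Finset.single_le_sum (f := fun y => ∑ z ∈ Finset.Ico y ℓ, uu (kk K) (z - y)) h0
      (Finset.mem_range.2 (by omega))
  have h2 : uu (kk K) (0 - 0) ≤ ∑ z ∈ Finset.Ico 0 ℓ, uu (kk K) (z - 0) :=
    Finset.single_le_sum (f := fun z => uu (kk K) (z - 0))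
      (fun z _ => uu_nonneg _ (kk_nonneg K) _) (Finset.mem_Ico.2 ⟨le_refl 0, by omega⟩)
  have h3 : uu (kk K) (0 - 0) = 1 := uu_zero _
  linarith

private lemma gg_nonneg (K : PMF ℕ) (ℓ : ℕ) (hℓ : 1 ≤ ℓ) (t : Bool) (n : ℕ) (t' : Bool)
    (x : ℕ → ℝ) : 0 ≤ gg K ℓ t n t' x := by
  unfold gg
  refine div_nonneg (Finset.sum_nonneg fun y _ => Finset.sum_nonneg fun z _ => ?_)
    (VV_pos K ℓ hℓ).le
  exact mul_nonneg (uu_nonneg _ (kk_nonneg K) _) (Real.exp_pos _).le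

private lemma ff_nonneg (K : PMF ℕ) (ℓ : ℕ) (hℓ : 1 ≤ ℓ) : ∀ (L : List (ℕ × ℕ)) (x : ℕ → ℝ),
    0 ≤ ff K ℓ L x
  | [], x => by rw [ff]; exact zero_le_one
  | p :: L, x => by
    rw [ff]
    exact mul_nonneg (mul_nonneg (gg_nonneg K ℓ hℓ _ _ _ _) (gg_nonneg K ℓ hℓ _ _ _ _))
      (ff_nonneg K ℓ hℓ L _)

theorem pf_GGS : T_GGS := by
  intro K ℓ hℓ
  refine ⟨VV_pos K ℓ hℓ, fun t n t' x => gg_nonneg K ℓ hℓ t n t' x, fun L x => ?_, ?_⟩
  · unfold FB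
    exact mul_nonneg (gg_nonneg K ℓ hℓ _ _ _ _) (ff_nonneg K ℓ hℓ L _)
  · intro n hn
    obtain ⟨m, rfl⟩ : ∃ m, n = m + 1 := ⟨n - 1, by omega⟩
    have e1 : 2 * (m + 1) * ℓ = (2 * (m + 1) - 1) * ℓ + ℓ := by
      have : 2 * (m + 1) - 1 = 2 * m + 1 := by omega
      rw [this]
      ring
    rw [e1]
    generalize (2 * (m + 1) - 1) * ℓ = c
    unfold VV
    rw [Finset.sum_Ico_eq_sum_range]
    have e2 : c + ℓ - c = ℓ := by omega
    rw [e2]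
    refine Finset.sum_congr rfl fun y hy => ?_
    rw [Finset.mem_range] at hy
    rw [Finset.sum_Ico_eq_sum_range, Finset.sum_Ico_eq_sum_range]
    have e3 : c + ℓ - (c + y) = ℓ - y := by omega
    rw [e3]
    refine Finset.sum_congr rfl fun z _ => ?_
    congr 1
    omega

end Pool.Agent.H35.CG
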