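import Pool.Agent.H55.CG.Targets

/-!
# MP_65efe8_pr, board cog_modules, row YUP: upper bound of the second moment
-/

set_option autoImplicit false

open MeasureTheory ProbabilityTheory Filter Topology
open Pool.Agent.H95 Pool.Agent.H95.Cop Pool.Agent.H55.CG

namespace Pool.Agent.H35.CG

open Classical in
theorem pf_YUP (hYPW : T_YPW) (hDCW : T_DCW) (hSCL : T_SCL) (hMSL : T_MSL) (hGGS : T_GGS) :
    T_YUP := by
  intro K ν _ hint α a s D q R ℓ m k P hα ha ha1 hs hD hq hℓ hM1 hM2 hP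
  have hs0 : 0 < s := by linarith
  obtain ⟨-, -, hFB, -⟩ := hGGS K ℓ hℓ
  have hP' : ∀ L ∈ P, okL q R L ∧ tot L = m := fun L hL => ⟨(hP L hL).1, (hP L hL).2.1⟩
  have hdc : ∀ L : List (ℕ × ℕ), 0 < dc α a L ∧ dc α a L ≤ 1 := fun L =>
    ⟨(hDCW α a 1 hα ha ha1 one_pos L).1, (hDCW α a 1 hα ha ha1 one_pos L).2.1⟩
  have hle : ∀ L : List (ℕ × ℕ), ∀ x : ℕ → ℝ,
      (if GB q ℓ L x then (dc α a L * FB K ℓ L x) ^ s else 0) ≤ FB K ℓ L x ^ s := by
    intro L x
    split_ifs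
    · refine Real.rpow_le_rpow (mul_nonneg (hdc L).1.le (hFB L x)) ?_ hs0.le
      exact mul_le_of_le_one_left (hFB L x) (hdc L).2
    · exact Real.rpow_nonneg (hFB L x) _
  have hi : ∀ L ∈ P, Integrable (fun x : ℕ → ℝ =>
      if GB q ℓ L x then (dc α a L * FB K ℓ L x) ^ s else 0) (iid ν) := by
    intro L hL
    have h1 := (hSCL K ν hint s q R ℓ hs0 hq hℓ L (hP L hL).1).1
    have h2 : MeasurableSet {x : ℕ → ℝ | GB q ℓ L x} := (hMSL K ℓ q m L).2.2.2.2.2.1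
    have h3 := (h1.const_mul (dc α a L ^ s)).indicator h2
    refine h3.congr (Filter.Eventually.of_forall fun x => ?_)
    by_cases hx : GB q ℓ L x
    · simp only [Set.indicator, Set.mem_ofPred_eq, hx, if_true]
      rw [Real.mul_rpow (hdc L).1.le (hFB L x)]
    · simp only [Set.indicator, Set.mem_ofPred_eq, hx, if_false]
  have e : (fun x : ℕ → ℝ => YY K α a q ℓ P x ^ s) = fun x => ∑ L ∈ P,
      if GB q ℓ L x then (dc α a L * FB K ℓ L x) ^ s else 0 :=
    funext fun x => (hYPW K α a q R ℓ P m hq ha.le hℓ hP' x s hs0).2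
  rw [e]
  refine ⟨integrable_finsetSum P hi, ?_⟩
  rw [integral_finsetSum P hi]
  calc ∑ L ∈ P, ∫ x : ℕ → ℝ, (if GB q ℓ L x then (dc α a L * FB K ℓ L x) ^ s else 0) ∂(iid ν)
      ≤ ∑ _L ∈ P, D ^ (2 * m + 2 * k + 3) := by
        refine Finset.sum_le_sum fun L hL => ?_
        obtain ⟨h1, h2⟩ := hSCL K ν hint s q R ℓ hs0 hq hℓ L (hP L hL).1
        have h3 := h2 D hs hD hM1 hM2
        rw [(hP L hL).2.1, (hP L hL).2.2] at h3
        exact (integral_mono (hi L hL) h1 (hle L)).trans h3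
    _ = P.card * D ^ (2 * m + 2 * k + 3) := by rw [Finset.sum_const, nsmul_eq_mul]

end Pool.Agent.H35.CG
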